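import Pool.Agent.Helper97.LPP.Defs

/-!
One Burke flip preserves independent exponential laws (module LPP-1, problem MP_6c0a5d_pr).
-/

open MeasureTheory ProbabilityTheory Filter Topology
open scoped ENNReal

namespace Helper97.LPP

/-- the flip `(I, J, o) ↦ (o + (I-J)⁺, o + (J-I)⁺, min I J)` -/
noncomputable def flip19 (p : (ℝ × ℝ) × ℝ) : (ℝ × ℝ) × ℝ :=
  ((p.2 + max (p.1.1 - p.1.2) 0, p.2 + max (p.1.2 - p.1.1) 0), min p.1.1 p.1.2)

theorem flip19_measurable : Measurable flip19 := by
  unfold flip19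
  fun_prop

/-- `(D, M) ↦ (M + D⁺, M + D⁻)` -/
noncomputable def coord19 (p : ℝ × ℝ) : ℝ × ℝ := (p.2 + max p.1 0, p.2 + max (-p.1) 0)

theorem coord19_mp : MeasurePreserving coord19 (volume.prod volume) (volume.prod volume) := by
  -- `(D, M) ↦ (D, M + D⁻) = (D, J)`
  have h1 : MeasurePreserving (fun p : ℝ × ℝ => (p.1, max (-p.1) 0 + p.2))
      ((volume : Measure ℝ).prod volume) (volume.prod volume) := by
    refine (MeasurePreserving.id (volume : Measure ℝ)).skew_product
      (g := fun x y => max (-x) 0 + y) ?_ ?_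
    · unfold Function.uncurry
      fun_prop
    · exact Filter.Eventually.of_forall fun x => map_add_left_eq_self volume _
  -- `(D, J) ↦ (J, J + D) = (J, I)`
  have h2 := measurePreserving_prod_add_swap (volume : Measure ℝ) (volume : Measure ℝ)
  have h3 : MeasurePreserving (Prod.swap : ℝ × ℝ → ℝ × ℝ)
      ((volume : Measure ℝ).prod volume) (volume.prod volume) := Measure.measurePreserving_swap
  have h4 := h3.comp (h2.comp h1)
  have e : coord19 = (Prod.swap : ℝ × ℝ → ℝ × ℝ) ∘ ((fun z : ℝ × ℝ => (z.2, z.2 + z.1)) ∘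
      (fun p : ℝ × ℝ => (p.1, max (-p.1) 0 + p.2))) := by
    funext p
    simp only [coord19, Function.comp, Prod.swap_prod_mk, Prod.mk.injEq]
    constructor
    · rcases le_total p.1 0 with h | h
      · rw [max_eq_right h, max_eq_left (by linarith)]; ring
      · rw [max_eq_left h, max_eq_right (by linarith)]; ring
    · ring
  rw [e]; exact h4

/-- Lebesgue measure on `ℝ³` is invariant under the flip -/
theorem flip19_mp : MeasurePreserving flip19
    (((volume : Measure ℝ).prod (volume : Measure ℝ)).prod (volume : Measure ℝ))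
    (((volume : Measure ℝ).prod (volume : Measure ℝ)).prod (volume : Measure ℝ)) := by
  set L := ((volume : Measure ℝ).prod (volume : Measure ℝ)).prod (volume : Measure ℝ) with hL
  have hA : MeasurePreserving (Prod.map coord19 (id : ℝ → ℝ)) L L :=
    coord19_mp.prod (MeasurePreserving.id volume)
  -- swap of the last two coordinates
  have hS : MeasurePreserving (fun p : (ℝ × ℝ) × ℝ => ((p.1.1, p.2), p.1.2)) L L := by
    have h1 : MeasurePreserving (MeasurableEquiv.prodAssoc : (ℝ × ℝ) × ℝ ≃ᵐ ℝ × ℝ × ℝ) L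
        ((volume : Measure ℝ).prod ((volume : Measure ℝ).prod (volume : Measure ℝ))) :=
      measurePreserving_prodAssoc volume volume volume
    have h2 : MeasurePreserving (Prod.map (id : ℝ → ℝ) (Prod.swap : ℝ × ℝ → ℝ × ℝ))
        ((volume : Measure ℝ).prod ((volume : Measure ℝ).prod (volume : Measure ℝ)))
        ((volume : Measure ℝ).prod ((volume : Measure ℝ).prod (volume : Measure ℝ))) :=
      (MeasurePreserving.id volume).prod Measure.measurePreserving_swap
    have h3 := h1.symm.comp (h2.comp h1)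
    exact h3
  refine ⟨flip19_measurable, ?_⟩
  have e : flip19 ∘ (Prod.map coord19 (id : ℝ → ℝ)) =
      (Prod.map coord19 (id : ℝ → ℝ)) ∘ (fun p : (ℝ × ℝ) × ℝ => ((p.1.1, p.2), p.1.2)) := by
    funext p
    obtain ⟨⟨D, M⟩, o⟩ := p
    simp only [flip19, coord19, Function.comp, Prod.map, id, Prod.mk.injEq]
    rcases le_total D 0 with h | h
    · rw [max_eq_right h, max_eq_left (a := -D) (by linarith)]
      refine ⟨⟨?_, ?_⟩, ?_⟩
      · rw [max_eq_right (by linarith)]
      · rw [max_eq_left (by linarith)]; ring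
      · rw [min_eq_left (by linarith)]; ring
    · rw [max_eq_left h, max_eq_right (a := -D) (by linarith)]
      refine ⟨⟨?_, ?_⟩, ?_⟩
      · rw [max_eq_left (by linarith)]; ring
      · rw [max_eq_right (by linarith)]
      · rw [min_eq_right (by linarith)]; ring
  calc L.map flip19 = (L.map (Prod.map coord19 (id : ℝ → ℝ))).map flip19 := by rw [hA.map_eq]
    _ = L.map (flip19 ∘ (Prod.map coord19 (id : ℝ → ℝ))) :=
        Measure.map_map flip19_measurable hA.measurable
    _ = L := by rw [e]; exact (hA.comp hS).map_eq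

/-- the joint density -/
noncomputable def dens19 (z : ℝ) (p : (ℝ × ℝ) × ℝ) : ℝ≥0∞ :=
  exponentialPDF z p.1.1 * exponentialPDF (1 - z) p.1.2 * exponentialPDF 1 p.2

theorem dens19_measurable (z : ℝ) : Measurable (dens19 z) := by
  unfold dens19
  have h1 := exponentialPDF_measurable z
  have h2 := exponentialPDF_measurable (1 - z)
  have h3 := exponentialPDF_measurable 1
  fun_prop

theorem dens19_eq {z : ℝ} (hz : 0 < z) (hz1 : z < 1) (p : (ℝ × ℝ) × ℝ) :
    dens19 z p = if 0 ≤ min p.1.1 p.1.2 ∧ 0 ≤ p.2 then ENNReal.ofReal (z * (1 - z) *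
      Real.exp (-(z * p.1.1 + (1 - z) * p.1.2 + p.2))) else 0 := by
  unfold dens19
  by_cases h1 : 0 ≤ p.1.1
  · by_cases h2 : 0 ≤ p.1.2
    · by_cases h3 : 0 ≤ p.2
      · rw [if_pos ⟨le_min h1 h2, h3⟩, exponentialPDF_of_nonneg h1, exponentialPDF_of_nonneg h2,
          exponentialPDF_of_nonneg h3,
          ← ENNReal.ofReal_mul (by positivity), ← ENNReal.ofReal_mul]
        · congr 1
          rw [show -(z * p.1.1 + (1 - z) * p.1.2 + p.2) =
            -(z * p.1.1) + (-((1 - z) * p.1.2) + -(1 * p.2)) by ring, Real.exp_add, Real.exp_add]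
          ring
        · have : 0 < 1 - z := by linarith
          positivity
      · rw [if_neg (fun h => h3 h.2), exponentialPDF_of_neg (not_le.1 h3), mul_zero]
    · rw [if_neg (fun h => h2 (le_min_iff.1 h.1).2), exponentialPDF_of_neg (not_le.1 h2), mul_zero,
        zero_mul]
  · rw [if_neg (fun h => h1 (le_min_iff.1 h.1).1), exponentialPDF_of_neg (not_le.1 h1), zero_mul,
      zero_mul]

theorem dens19_flip {z : ℝ} (hz : 0 < z) (hz1 : z < 1) (p : (ℝ × ℝ) × ℝ) :
    dens19 z (flip19 p) = dens19 z p := by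
  rw [dens19_eq hz hz1, dens19_eq hz hz1]
  obtain ⟨⟨I, J⟩, o⟩ := p
  have h1 : min (o + max (I - J) 0) (o + max (J - I) 0) = o := by
    rcases le_total I J with h | h
    · rw [max_eq_right (by linarith : I - J ≤ 0), min_eq_left]
      · ring
      · have := le_max_right (J - I) 0
        linarith
    · rw [max_eq_right (by linarith : J - I ≤ 0), min_eq_right]
      · ring
      · have := le_max_right (I - J) 0
        linarith
  have h2 : z * (o + max (I - J) 0) + (1 - z) * (o + max (J - I) 0) + min I J =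
      z * I + (1 - z) * J + o := by
    rcases le_total I J with h | h
    · rw [max_eq_right (by linarith : I - J ≤ 0), max_eq_left (by linarith : 0 ≤ J - I),
        min_eq_left h]; ring
    · rw [max_eq_left (by linarith : 0 ≤ I - J), max_eq_right (by linarith : J - I ≤ 0),
        min_eq_right h]; ring
  simp only [flip19, h1, h2]
  by_cases h3 : 0 ≤ min I J ∧ 0 ≤ o
  · rw [if_pos h3, if_pos ⟨h3.2, h3.1⟩]
  · rw [if_neg h3, if_neg (fun h => h3 ⟨h.2, h.1⟩)]

theorem law19_eq (z : ℝ) : ((expMeasure z).prod (expMeasure (1 - z))).prod (expMeasure 1) =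
    (((volume : Measure ℝ).prod (volume : Measure ℝ)).prod (volume : Measure ℝ)).withDensity
      (dens19 z) := by
  have h1 := exponentialPDF_measurable z
  have h2 := exponentialPDF_measurable (1 - z)
  have h3 := exponentialPDF_measurable 1
  rw [expMeasure_eq, expMeasure_eq, expMeasure_eq, prod_withDensity h1 h2,
    prod_withDensity (by fun_prop) h3]
  rfl

/-- the flip preserves the product law -/
theorem flip19_law {z : ℝ} (hz : 0 < z) (hz1 : z < 1) :
    (((expMeasure z).prod (expMeasure (1 - z))).prod (expMeasure 1)).map flip19 =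
      ((expMeasure z).prod (expMeasure (1 - z))).prod (expMeasure 1) := by
  rw [law19_eq]
  ext s hs
  rw [Measure.map_apply flip19_measurable hs, withDensity_apply _ (flip19_measurable hs),
    withDensity_apply _ hs]
  rw [← flip19_mp.setLIntegral_comp_preimage hs (dens19_measurable z)]
  simp_rw [dens19_flip hz hz1]

variable {Ω : Type*} [MeasurableSpace Ω] {P : Measure Ω} [IsProbabilityMeasure P]

theorem flip_indep {ι : Type*} [DecidableEq ι] {Y : ι → Ω → ℝ} (hm : ∀ i, Measurable (Y i))
    (hi : iIndepFun Y P) {α β γ : ι} (hαβ : α ≠ β) (hαγ : α ≠ γ) (hβγ : β ≠ γ) {z : ℝ}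
    (hz : 0 < z) (hz1 : z < 1) (hα : P.map (Y α) = expMeasure z)
    (hβ : P.map (Y β) = expMeasure (1 - z)) (hγ : P.map (Y γ) = expMeasure 1)
    {Y' : ι → Ω → ℝ} (h1 : ∀ ω, Y' α ω = Y γ ω + max (Y α ω - Y β ω) 0)
    (h2 : ∀ ω, Y' β ω = Y γ ω + max (Y β ω - Y α ω) 0)
    (h3 : ∀ ω, Y' γ ω = min (Y α ω) (Y β ω))
    (h4 : ∀ i, i ≠ α → i ≠ β → i ≠ γ → Y' i = Y i) :
    iIndepFun Y' P ∧ P.map (Y' α) = expMeasure z ∧ P.map (Y' β) = expMeasure (1 - z) ∧
      P.map (Y' γ) = expMeasure 1 := by
  have i1 : IsProbabilityMeasure (expMeasure z) := isProbabilityMeasure_expMeasure hz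
  have i2 : IsProbabilityMeasure (expMeasure (1 - z)) :=
    isProbabilityMeasure_expMeasure (by linarith)
  have i3 : IsProbabilityMeasure (expMeasure 1) := isProbabilityMeasure_expMeasure one_pos
  have hm' : ∀ i, Measurable (Y' i) := by
    intro i
    by_cases ha : i = α
    · subst ha
      rw [show Y' i = fun ω => Y γ ω + max (Y i ω - Y β ω) 0 from funext h1]
      exact (hm γ).add (((hm _).sub (hm _)).max measurable_const)
    by_cases hb : i = β
    · subst hb
      rw [show Y' i = fun ω => Y γ ω + max (Y i ω - Y α ω) 0 from funext h2]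
      exact (hm γ).add (((hm _).sub (hm _)).max measurable_const)
    by_cases hc : i = γ
    · subst hc
      rw [show Y' i = fun ω => min (Y α ω) (Y β ω) from funext h3]
      exact (hm _).min (hm _)
    rw [h4 i ha hb hc]; exact hm i
  -- the triple
  set T : Ω → (ℝ × ℝ) × ℝ := fun ω => ((Y α ω, Y β ω), Y γ ω) with hT
  set T' : Ω → (ℝ × ℝ) × ℝ := fun ω => ((Y' α ω, Y' β ω), Y' γ ω) with hT'
  have hTm : Measurable T := ((hm α).prodMk (hm β)).prodMk (hm γ)
  have hTm' : Measurable T' := ((hm' α).prodMk (hm' β)).prodMk (hm' γ)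
  have hTT' : T' = flip19 ∘ T := by
    funext ω
    simp only [hT', hT, Function.comp, flip19, h1, h2, h3]
  have lawT : P.map T = ((expMeasure z).prod (expMeasure (1 - z))).prod (expMeasure 1) := by
    have e1 := (indepFun_iff_map_prod_eq_prod_map_map ((hm α).prodMk (hm β)).aemeasurable
      (hm γ).aemeasurable).1 (hi.indepFun_prodMk hm α β γ hαγ hβγ)
    have e2 := (indepFun_iff_map_prod_eq_prod_map_map (hm α).aemeasurable
      (hm β).aemeasurable).1 (hi.indepFun hαβ)
    rw [hT, e1, e2, hα, hβ, hγ]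
  have lawT' : P.map T' = ((expMeasure z).prod (expMeasure (1 - z))).prod (expMeasure 1) := by
    rw [hTT', ← Measure.map_map flip19_measurable hTm, lawT, flip19_law hz hz1]
  have la : P.map (Y' α) = expMeasure z := by
    have e : Y' α = (fun p : (ℝ × ℝ) × ℝ => p.1.1) ∘ T' := by funext ω; rfl
    rw [e, ← Measure.map_map (by fun_prop) hTm', lawT']
    have e' : (fun p : (ℝ × ℝ) × ℝ => p.1.1) = Prod.fst ∘ Prod.fst := rfl
    rw [e', ← Measure.map_map measurable_fst measurable_fst, Measure.map_fst_prod,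
      measure_univ, one_smul, Measure.map_fst_prod, measure_univ, one_smul]
  have lb : P.map (Y' β) = expMeasure (1 - z) := by
    have e : Y' β = (fun p : (ℝ × ℝ) × ℝ => p.1.2) ∘ T' := by funext ω; rfl
    rw [e, ← Measure.map_map (by fun_prop) hTm', lawT']
    have e' : (fun p : (ℝ × ℝ) × ℝ => p.1.2) = Prod.snd ∘ Prod.fst := rfl
    rw [e', ← Measure.map_map measurable_snd measurable_fst, Measure.map_fst_prod,
      measure_univ, one_smul, Measure.map_snd_prod, measure_univ, one_smul]
  have lc : P.map (Y' γ) = expMeasure 1 := by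
    have e : Y' γ = (fun p : (ℝ × ℝ) × ℝ => p.2) ∘ T' := by funext ω; rfl
    rw [e, ← Measure.map_map (by fun_prop) hTm', lawT']
    have e' : (fun p : (ℝ × ℝ) × ℝ => p.2) = Prod.snd := rfl
    rw [e', Measure.map_snd_prod, measure_univ, one_smul]
  refine ⟨?_, la, lb, lc⟩
  rw [iIndepFun_iff_measure_inter_preimage_eq_mul]
  intro S sets hsets
  -- enlarge the index set
  set t : ι → Set ℝ := fun i => if i ∈ S then sets i else Set.univ with ht
  have htm : ∀ i, MeasurableSet (t i) := by
    intro i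
    by_cases hiS : i ∈ S
    · simp only [ht, hiS, if_true]; exact hsets i hiS
    · simp only [ht, hiS, if_false]; exact MeasurableSet.univ
  set G : Finset ι := {α, β, γ} with hG
  set R : Finset ι := S \ G with hR
  have hRG : Disjoint R G := Finset.sdiff_disjoint
  have eInter : (⋂ i ∈ S, Y' i ⁻¹' sets i) =
      (T' ⁻¹' ((t α ×ˢ t β) ×ˢ t γ)) ∩ (⋂ i ∈ R, Y i ⁻¹' sets i) := by
    ext ω
    simp only [Set.mem_iInter, Set.mem_preimage, Set.mem_inter_iff, Set.mem_prod, hT']
    constructor
    · intro h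
      refine ⟨⟨⟨?_, ?_⟩, ?_⟩, ?_⟩
      · by_cases hS : α ∈ S
        · simp only [ht, hS, if_true]; exact h α hS
        · simp [ht, hS]
      · by_cases hS : β ∈ S
        · simp only [ht, hS, if_true]; exact h β hS
        · simp [ht, hS]
      · by_cases hS : γ ∈ S
        · simp only [ht, hS, if_true]; exact h γ hS
        · simp [ht, hS]
      · intro i hiR
        rw [hR, Finset.mem_sdiff] at hiR
        simp only [hG, Finset.mem_insert, Finset.mem_singleton, not_or] at hiR
        have := h i hiR.1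
        rwa [h4 i hiR.2.1 hiR.2.2.1 hiR.2.2.2] at this
    · rintro ⟨⟨⟨ha, hb⟩, hc⟩, hr⟩ i hiS
      by_cases e1 : i = α
      · subst e1; simpa only [ht, hiS, if_true] using ha
      by_cases e2 : i = β
      · subst e2; simpa only [ht, hiS, if_true] using hb
      by_cases e3 : i = γ
      · subst e3; simpa only [ht, hiS, if_true] using hc
      rw [h4 i e1 e2 e3]
      apply hr i
      rw [hR, Finset.mem_sdiff]
      simp only [hG, Finset.mem_insert, Finset.mem_singleton, not_or]
      exact ⟨hiS, e1, e2, e3⟩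
  -- independence of the triple and the rest
  have hind := hi.indepFun_finset G R hRG.symm hm
  have mα : α ∈ G := by simp [hG]
  have mβ : β ∈ G := by simp [hG]
  have mγ : γ ∈ G := by simp [hG]
  have hU : MeasurableSet {x : G → ℝ | flip19 ((x ⟨α, mα⟩, x ⟨β, mβ⟩), x ⟨γ, mγ⟩) ∈
      (t α ×ˢ t β) ×ˢ t γ} := by
    have : Measurable (fun x : G → ℝ => flip19 ((x ⟨α, mα⟩, x ⟨β, mβ⟩), x ⟨γ, mγ⟩)) :=
      flip19_measurable.comp (by fun_prop)
    exact this (((htm α).prod (htm β)).prod (htm γ))
  have hV : MeasurableSet {x : R → ℝ | ∀ i : R, x i ∈ sets i} := by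
    have : {x : R → ℝ | ∀ i : R, x i ∈ sets i} = Set.univ.pi (fun i : R => sets i) := by
      ext x; simp
    rw [this]
    exact MeasurableSet.univ_pi fun i => hsets i (Finset.sdiff_subset i.2)
  have hprod := hind.measure_inter_preimage_eq_mul _ _ hU hV
  have eU : (fun a (i : G) => Y i a) ⁻¹' {x : G → ℝ | flip19 ((x ⟨α, mα⟩, x ⟨β, mβ⟩), x ⟨γ, mγ⟩) ∈
      (t α ×ˢ t β) ×ˢ t γ} = T' ⁻¹' ((t α ×ˢ t β) ×ˢ t γ) := by
    rw [hTT']; rfl
  have eV : (fun a (i : R) => Y i a) ⁻¹' {x : R → ℝ | ∀ i : R, x i ∈ sets i} =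
      (⋂ i ∈ R, Y i ⁻¹' sets i) := by
    ext ω
    simp only [Set.mem_preimage, Set.mem_iInter]
    constructor
    · intro h i hiR; exact h ⟨i, hiR⟩
    · intro h i; exact h i i.2
  rw [eU, eV] at hprod
  rw [eInter, hprod]
  -- the probability of the triple
  have pT : P (T' ⁻¹' ((t α ×ˢ t β) ×ˢ t γ)) =
      P (Y' α ⁻¹' t α) * P (Y' β ⁻¹' t β) * P (Y' γ ⁻¹' t γ) := by
    rw [← Measure.map_apply hTm' (((htm α).prod (htm β)).prod (htm γ)), lawT',
      Measure.prod_prod, Measure.prod_prod, ← la, ← lb, ← lc,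
      Measure.map_apply (hm' α) (htm α), Measure.map_apply (hm' β) (htm β),
      Measure.map_apply (hm' γ) (htm γ)]
  have pR : P (⋂ i ∈ R, Y i ⁻¹' sets i) = ∏ i ∈ R, P (Y i ⁻¹' sets i) :=
    hi.measure_inter_preimage_eq_mul R (fun i hiR => hsets i (Finset.sdiff_subset hiR))
  rw [pT, pR]
  -- the product
  have pS : ∏ i ∈ S, P (Y' i ⁻¹' sets i) = ∏ i ∈ R ∪ G, P (Y' i ⁻¹' t i) := by
    have hsub : S ⊆ R ∪ G := by
      intro i hiS
      by_cases hiG : i ∈ G
      · exact Finset.mem_union_right _ hiG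
      · exact Finset.mem_union_left _ (Finset.mem_sdiff.2 ⟨hiS, hiG⟩)
    rw [← Finset.prod_subset hsub]
    · refine Finset.prod_congr rfl ?_
      intro i hiS
      simp only [ht, hiS, if_true]
    · intro i _ hiS
      simp only [ht, hiS, if_false, Set.preimage_univ, measure_univ]
  rw [pS, Finset.prod_union hRG]
  have pR' : ∏ i ∈ R, P (Y' i ⁻¹' t i) = ∏ i ∈ R, P (Y i ⁻¹' sets i) := by
    refine Finset.prod_congr rfl ?_
    intro i hiR
    have hiS : i ∈ S := Finset.sdiff_subset hiR
    rw [hR, Finset.mem_sdiff] at hiR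
    simp only [hG, Finset.mem_insert, Finset.mem_singleton, not_or] at hiR
    simp only [ht, hiS, if_true]
    rw [h4 i hiR.2.1 hiR.2.2.1 hiR.2.2.2]
  have pG : ∏ i ∈ G, P (Y' i ⁻¹' t i) =
      P (Y' α ⁻¹' t α) * P (Y' β ⁻¹' t β) * P (Y' γ ⁻¹' t γ) := by
    rw [hG, Finset.prod_insert (by simp [hαβ, hαγ]), Finset.prod_insert (by simp [hβγ]),
      Finset.prod_singleton, mul_assoc]
  rw [pR', pG, mul_comm]

end Helper97.LPP
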